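import Pool.Agent.Helper9.FT.Main

/-!
# Hypersurfaces with few monomials and their compositions
-/

namespace Pool.Agent.Results.MP_e93a6a_ag.FewMonomials

open AlgebraicGeometry TensorProduct
open Pool.Agent.Helper65.Mor (CurveProduct)
open Pool.Agent.Helper9.FT (System KummerClosed)

/-- Let `k` be a finite field, let `F` be a field, let `P` be a class of schemes closed under
gluing and the adjunction of `d`-th roots of units for all `d` with `d ≠ 0` in `F`, and let `S` be
a system of polynomial equations over `k` with `System k F ι S`. Then `P` contains the product of
the closed subscheme `S = 0` of the affine space with every product of affine curves over `k`.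

For example, for `F = ℚ` this applies to `S = {f}` with any polynomial `f` with at most four
monomials. -/
theorem result (k : Type) [Field k] [Finite k] (F : Type) [Field F] (P : Scheme.{0} → Prop)
    (hP : KummerClosed k F P) (ι : Type) (S : Set (MvPolynomial ι k)) (hS : System k F ι S)
    (C : Type) [CommRing C] [Algebra k C] (hC : CurveProduct k C) :
    P (Spec (CommRingCat.of (C ⊗[k] (MvPolynomial ι k ⧸ Ideal.span S)))) :=
  Pool.Agent.Helper9.FT.kummer_main hP hS C hC

end Pool.Agent.Results.MP_e93a6a_ag.FewMonomials
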