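import Pool.Agent.Helper72.OD.Int
import Pool.Agent.Helper72.OD.Ext

/-!
# Stable open subschemes of projective schemes with at most one-parameter families of orbits
-/

set_option autoImplicit false

namespace Pool.Agent.Results.MP_e93a6a_ag.OrbitTheorem

open AlgebraicGeometry CategoryTheory Pool.Agent.Helper72.OD

/-- **Orbit theorem.** Let `Λ` be a commutative ring.
(1) The group scheme of invertible matrices supported on a preorder `r` (`GL_n`, its parabolic
subgroups, products of such, ...) and its subgroup of matrices of determinant one are flagged.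
(2) The symplectic group `Sp_2m` is flagged.
(3) Let the flagged group scheme `G` over `Λ` act on the affine cone `Spec S` of the graded
`Λ`-algebra `S`, which is finitely generated over `ℤ` and generated in degrees `0` and `1`, such
that the action commutes with scaling. Let `X` be the open subscheme of `Proj S` given by a
homogeneous stable ideal `c`. Let `R` be a `Λ`-algebra which is finitely generated over `ℤ` and of
dimension at most one and `y : S → R` a homomorphism, such that for every `Λ`-algebra `F` which is
an algebraic closure of a field with `p` elements, `p` a prime number, every `F`-valued point `x` of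
the punctured cone over `X` is of the form `x = u · g · (z ∘ y)` for some `z : R → F`, `g ∈ G(F)`
and `u ∈ Fˣ`. Then `X` belongs to every class `P` of arithmetic schemes with the formal properties
`Rules` of the class of those `X` whose groups `H^i(X_et, ℤ^c(n))` are finitely generated for all
`n < 0`. -/
theorem result (Λ : Type) [CommRing Λ] :
    (∀ (s : Prop) (n : ℕ) (r : Pre n), ∃ G : GFun Λ, IsMat (preSet s r) G ∧ Flagged Λ G) ∧
    (∀ m : ℕ, ∃ G : GFun Λ, IsMat (spSet m) G ∧ Flagged Λ G) ∧
    ∀ (P : Scheme.{0} → Prop), Rules P → ∀ G : GFun Λ, Flagged Λ G →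
      ∀ (S : CommAlgCat.{0} Λ) (𝒮 : ℕ → AddSubgroup S) [GradedRing 𝒮] (α : Act G S) (c : Ideal S),
      Linearised 𝒮 α c → ∀ (R : CommAlgCat.{0} Λ) (y : S ⟶ R), (Int.castRingHom R).FiniteType →
      ringKrullDim R ≤ 1 → Orbits 𝒮 α c y → P (projOpen 𝒮 c).toScheme :=
  ⟨fun s _ r => exists_preSet s r Λ, fun m => exists_spSet m Λ,
    fun _ hP _ hG _ 𝒮 _ α c hc _ y hR hdim h => final hP hG 𝒮 α c hc y hR hdim h⟩

end Pool.Agent.Results.MP_e93a6a_ag.OrbitTheorem
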