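import Pool.Agent.Helper72.OB.Final

/-!
# Stable open subschemes of projective schemes with at most one-parameter families of orbits
-/

set_option autoImplicit false

namespace Pool.Agent.Helper72.Keep.OrbitTheoremOB

open AlgebraicGeometry Pool.Agent.Helper72.OB

/-- **Orbit theorem.** Let `r` be a preorder on `{1, ..., n}` and let the group scheme `G_r` of
invertible matrices supported on `r` (a product of general linear groups, a parabolic or Borel
subgroup, a split torus, ...) act on the affine cone `Spec S` of the graded ring `S`, which is
finitely generated and generated in degrees `0` and `1`, such that the action commutes with scaling.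
Let `X` be the open subscheme of `Proj S` given by a homogeneous stable ideal `c`. Let `R` be a
finitely generated ring of dimension at most one and `y : S → R` a homomorphism, such that every
geometric point `x` of the punctured cone over `X` is of the form `x = u · g · (z ∘ y)` for a
geometric point `z` of `Spec R`, an element `g` of `G_r` and a scalar `u`. Then `X` belongs to every
class `P` of arithmetic schemes with the formal properties `Rules` of the class of those `X` whose
groups `H^i(X_et, ℤ^c(n))` are finitely generated for all `n < 0`. -/
theorem result (P : Scheme.{0} → Prop) (hP : Rules P) {n : ℕ} (r : Pre n) {S : Type} [CommRing S]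
    (𝒮 : ℕ → AddSubgroup S) [GradedRing 𝒮] (hS : Std 𝒮) (α : Act r S) (hα : α.Graded 𝒮)
    (c : Ideal S) (hc : c.IsHomogeneous 𝒮) (hcs : α.Stable c)
    {R : Type} [CommRing R] (hR : (Int.castRingHom R).FiniteType) (hdim : ringKrullDim R ≤ 1)
    (y : S →+* R)
    (h : ∀ (Ω : Type) [Field Ω] [IsAlgClosed Ω] (x : S →+* Ω), (∃ a ∈ c, x a ≠ 0) →
      (∃ a ∈ 𝒮 1, x a ≠ 0) → ∃ (z : R →+* Ω) (g : Gp r Ω) (u : Ωˣ),
        ∀ d, ∀ s ∈ 𝒮 d, x s = u ^ d * α.act g (z.comp y) s) :
    P (projOpen 𝒮 c).toScheme :=
  final hP r 𝒮 hS α hα c hc hcs hR hdim y h

end Pool.Agent.Helper72.Keep.OrbitTheoremOB
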